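import Pool.Agent.Q63.ISO.All

/-!
PROJECT ISO, general model space: local isothermal coordinates on a two-dimensional real normed space `E`
with a basis `b`.
-/

set_option autoImplicit false

open MeasureTheory Set Filter Metric Bundle
open scoped ContDiff Topology Manifold

namespace Pool.Agent.Q63.ISE

open Pool.Agent.Q63.ISO

universe u v

section

variable {E : Type v} [NormedAddCommGroup E] [NormedSpace ℝ E]

/-- the Laplace-Beltrami operator of the metric `𝔤` in the coordinates of the basis `b` -/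
noncomputable def LBE (b : Module.Basis (Fin 2) ℝ E) (𝔤 : E → Matrix (Fin 2) (Fin 2) ℝ) (h : E → ℝ)
    (z : E) : ℝ :=
  (√((𝔤 z).det))⁻¹ * ∑ i, fderiv ℝ (fun y => √((𝔤 y).det) *
    ∑ j, (𝔤 y)⁻¹ i j * fderiv ℝ h y (b j)) z (b i)

/-- the linear equivalence with the Euclidean plane given by the basis -/
noncomputable def Leq (b : Module.Basis (Fin 2) ℝ E) : P ≃L[ℝ] E :=
  ((EuclideanSpace.equiv (Fin 2) ℝ).toLinearEquiv.trans b.equivFun.symm).toContinuousLinearEquiv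

lemma Leq_apply (b : Module.Basis (Fin 2) ℝ E) (v : P) : Leq b v = ∑ i, v i • b i := by
  simp [Leq, Module.Basis.equivFun_symm_apply]

lemma Leq_be (b : Module.Basis (Fin 2) ℝ E) (i : Fin 2) : Leq b (be i) = b i := by
  rw [Leq_apply]
  fin_cases i <;> simp [be]

lemma Leq_symm_apply (b : Module.Basis (Fin 2) ℝ E) (v : E) (i : Fin 2) :
    (Leq b).symm v i = b.repr v i := by
  simp [Leq]

lemma fderiv_comp_Leq (b : Module.Basis (Fin 2) ℝ E) (h : E → ℝ) (z v : P) :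
    fderiv ℝ (fun y => h (Leq b y)) z v = fderiv ℝ h (Leq b z) (Leq b v) := by
  have h1 := (Leq b).comp_right_fderiv (f := h) (x := z)
  have h2 := congrArg (fun T : P →L[ℝ] ℝ => T v) h1
  exact h2

lemma LB_comp_Leq (b : Module.Basis (Fin 2) ℝ E) (𝔤 : E → Matrix (Fin 2) (Fin 2) ℝ) (h : E → ℝ)
    (z : P) : LB (fun y => 𝔤 (Leq b y)) (fun y => h (Leq b y)) z = LBE b 𝔤 h (Leq b z) := by
  unfold LB LBE
  congr 1
  refine Finset.sum_congr rfl fun i _ => ?_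
  have h1 : (fun y : P => √((𝔤 (Leq b y)).det) *
      ∑ j, (𝔤 (Leq b y))⁻¹ i j * fderiv ℝ (fun y => h (Leq b y)) y (be j)) =
      fun y : P => (fun y : E => √((𝔤 y).det) * ∑ j, (𝔤 y)⁻¹ i j * fderiv ℝ h y (b j)) (Leq b y) := by
    funext y
    simp only [fderiv_comp_Leq, Leq_be]
  rw [h1, fderiv_comp_Leq b (fun y : E => √((𝔤 y).det) * ∑ j, (𝔤 y)⁻¹ i j * fderiv ℝ h y (b j)),
    Leq_be]

/-- The local theorem on `E`. -/
theorem iso_localE (b : Module.Basis (Fin 2) ℝ E) (Ω : Set E) (z₀ : E)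
    (𝔤 : E → Matrix (Fin 2) (Fin 2) ℝ) (hΩ : IsOpen Ω) (hz : z₀ ∈ Ω)
    (hs : ∀ i j, ContDiffOn ℝ ∞ (fun z => 𝔤 z i j) Ω) (hp : ∀ z ∈ Ω, Pos2 (𝔤 z)) :
    ∃ (W : Set E) (ψ : E → ℂ) (χ : ℂ → E) (ρ : ℂ → ℝ), z₀ ∈ W ∧ W ⊆ Ω ∧ IsOpen W ∧ IsOpen (ψ '' W) ∧
      ContDiffOn ℝ ∞ ψ W ∧ ContDiffOn ℝ ∞ χ (ψ '' W) ∧ (∀ z ∈ W, χ (ψ z) = z) ∧
      ContDiffOn ℝ ∞ ρ (ψ '' W) ∧ (∀ w ∈ ψ '' W, 0 < ρ w) ∧
      (∀ z ∈ W, ∀ v : E, ∑ i, ∑ j, 𝔤 z i j * b.repr v i * b.repr v j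
        = ρ (ψ z) * ‖fderiv ℝ ψ z v‖ ^ 2) ∧
      ∀ h : ℂ → ℝ, ContDiffOn ℝ ∞ h (ψ '' W) → ∀ z ∈ W,
        lapC h (ψ z) = ρ (ψ z) * LBE b 𝔤 (fun y => h (ψ y)) z := by
  set L := Leq b with hLdef
  obtain ⟨W, ψ, χ, ρ, hzW, hW, hWo, hWi, hψ, hχ, hinv, hρ, hpos, hconf, hlb⟩ :=
    iso_local (Pool.Agent.Q38.ISO.LOC.proof_loc proof_pot) proof_ama proof_con (L ⁻¹' Ω) (L.symm z₀)
      (fun z => 𝔤 (L z)) (hΩ.preimage L.continuous) (by simpa using hz)
      (fun i j => (hs i j).comp L.contDiff.contDiffOn (fun z hz => hz))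
      (fun z hz => hp (L z) hz)
  have hW' : L '' W = L.symm ⁻¹' W := by
    ext z
    constructor
    · rintro ⟨w, hw, rfl⟩
      simpa using hw
    · intro hz
      exact ⟨L.symm z, hz, by simp⟩
  have himg : (fun z => ψ (L.symm z)) '' (L '' W) = ψ '' W := by
    rw [image_image]
    simp
  refine ⟨L '' W, fun z => ψ (L.symm z), fun w => L (χ w), ρ, ?_, ?_, ?_, ?_, ?_, ?_, ?_, ?_, ?_,
    ?_, ?_⟩
  · exact ⟨L.symm z₀, hzW, by simp⟩
  · rintro _ ⟨w, hw, rfl⟩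
    exact hW hw
  · rw [hW']
    exact hWo.preimage L.symm.continuous
  · rw [himg]
    exact hWi
  · rw [hW']
    exact hψ.comp L.symm.contDiff.contDiffOn (fun z hz => hz)
  · rw [himg]
    exact L.contDiff.comp_contDiffOn hχ
  · rintro _ ⟨w, hw, rfl⟩
    simp [hinv w hw]
  · rw [himg]
    exact hρ
  · rw [himg]
    exact hpos
  · rintro _ ⟨w, hw, rfl⟩ v
    have h1 := hconf w hw (L.symm v)
    have h2 : fderiv ℝ (fun z => ψ (L.symm z)) (L w) v = fderiv ℝ ψ w (L.symm v) := by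
      have h3 := L.symm.comp_right_fderiv (f := ψ) (x := L w)
      have h4 := congrArg (fun T : E →L[ℝ] ℂ => T v) h3
      simp only [ContinuousLinearEquiv.symm_apply_apply] at h4
      exact h4
    rw [h2]
    simp only [ContinuousLinearEquiv.symm_apply_apply]
    rw [← h1]
    refine Finset.sum_congr rfl fun i _ => Finset.sum_congr rfl fun j _ => ?_
    rw [hLdef, Leq_symm_apply, Leq_symm_apply]
  · intro h hh
    rw [himg] at hh
    rintro _ ⟨w, hw, rfl⟩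
    have h1 := hlb h hh w hw
    have h2 := LB_comp_Leq b 𝔤 (fun y => h (ψ (L.symm y))) w
    rw [← hLdef] at h2
    simp only [ContinuousLinearEquiv.symm_apply_apply] at h2 ⊢
    rw [h1, h2]

end

end Pool.Agent.Q63.ISE
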