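import Pool.Agent.Q63.ISE.Loc

/-!
PROJECT ISO, general model space: smooth Riemannian manifolds modelled on a two-dimensional real normed
space `E` with a basis `b` have isothermal atlases. The proofs are those of the project ISO (helpers 63, 91, 92,
280), for the model `𝓘(ℝ, E)`.
-/

set_option autoImplicit false
set_option linter.unusedSectionVars false

open MeasureTheory Set Filter Metric Bundle
open scoped ContDiff Topology Manifold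

namespace Pool.Agent.Q63.ISE

open Pool.Agent.Q63.ISO (P be lapC Pos2)

universe u v

section

variable {E : Type v} [NormedAddCommGroup E] [NormedSpace ℝ E]
  {M : Type u} [TopologicalSpace M] [ChartedSpace E M]
  [RiemannianBundle (fun (x : M) ↦ TangentSpace 𝓘(ℝ, E) x)]

/-- The derivative of the inverse of the chart at `x₀`. -/
noncomputable def dch (x₀ : M) (z : E) : TangentSpace 𝓘(ℝ, E) z →L[ℝ]
    TangentSpace 𝓘(ℝ, E) ((extChartAt 𝓘(ℝ, E) x₀).symm z) :=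
  mfderiv 𝓘(ℝ, E) 𝓘(ℝ, E) (extChartAt 𝓘(ℝ, E) x₀).symm z

/-- The matrix of the metric in the chart at `x₀`: the inner products of the coordinate vectors. -/
noncomputable def gram (b : Module.Basis (Fin 2) ℝ E) (x₀ : M) (z : E) : Matrix (Fin 2) (Fin 2) ℝ :=
  Matrix.of fun i j => inner ℝ (dch x₀ z (b i)) (dch x₀ z (b j))

/-- Smooth real functions with `Δ_g f + lam f = 0`, where the Laplace-Beltrami operator is computed in the
charts. -/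
def EigM (b : Module.Basis (Fin 2) ℝ E) (lam : ℝ) (f : M → ℝ) : Prop :=
  ContMDiff 𝓘(ℝ, E) 𝓘(ℝ, ℝ) ∞ f ∧ ∀ x₀ : M, ∀ z ∈ (extChartAt 𝓘(ℝ, E) x₀).target,
    LBE b (gram b x₀) (fun y => f ((extChartAt 𝓘(ℝ, E) x₀).symm y)) z
      + lam * f ((extChartAt 𝓘(ℝ, E) x₀).symm z) = 0

variable (E) in
/-- Isothermal charts of `M`: `φ` is a diffeomorphism of `U` onto an open set, with inverse `ψ`, the metric
is `ρ |dw|²`. -/
structure IsoChart (U : Set ℂ) (φ : ℂ → M) (ψ : M → ℂ) (ρ : ℂ → ℝ) : Prop where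
  openU : IsOpen U
  openI : IsOpen (φ '' U)
  smoothφ : ContMDiffOn 𝓘(ℝ, ℂ) 𝓘(ℝ, E) ∞ φ U
  smoothψ : ContMDiffOn 𝓘(ℝ, E) 𝓘(ℝ, ℂ) ∞ ψ (φ '' U)
  inv : ∀ w ∈ U, ψ (φ w) = w
  smoothρ : ContDiffOn ℝ ∞ ρ U
  pos : ∀ w ∈ U, 0 < ρ w
  conf : ∀ w ∈ U, ∀ v : ℂ, ‖mfderiv 𝓘(ℝ, ℂ) 𝓘(ℝ, E) φ w v‖ ^ 2 = ρ w * ‖v‖ ^ 2

end

/-! ### The matrix of the metric (GRA) -/

section

variable {E : Type v} [NormedAddCommGroup E] [NormedSpace ℝ E]
  {M : Type u} [TopologicalSpace M] [ChartedSpace E M] [IsManifold 𝓘(ℝ, E) ∞ M]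
  [RiemannianBundle (fun (x : M) ↦ TangentSpace 𝓘(ℝ, E) x)]

lemma dch_inj (x₀ : M) {z : E} (hz : z ∈ (extChartAt 𝓘(ℝ, E) x₀).target) :
    Function.Injective (dch x₀ z) := by
  have h := isInvertible_mfderivWithin_extChartAt_symm (I := 𝓘(ℝ, E)) hz
  rw [ModelWithCorners.Boundaryless.range_eq_univ, mfderivWithin_univ] at h
  exact h.injective

lemma norm_dch (b : Module.Basis (Fin 2) ℝ E) (x₀ : M) (z v : E) :
    ‖dch x₀ z v‖ ^ 2 = ∑ i, ∑ j, gram b x₀ z i j * b.repr v i * b.repr v j := by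
  have h1 : dch x₀ z v = b.repr v 0 • dch x₀ z (b 0) + b.repr v 1 • dch x₀ z (b 1) := by
    have h2 : v = b.repr v 0 • b 0 + b.repr v 1 • b 1 := by
      have := b.sum_repr v
      rw [Fin.sum_univ_two] at this
      exact this.symm
    conv_lhs => rw [h2]
    have h3 := (dch x₀ z).map_add (b.repr v 0 • b 0) (b.repr v 1 • b 1)
    have h4 := (dch x₀ z).map_smul (b.repr v 0) (b 0)
    have h5 := (dch x₀ z).map_smul (b.repr v 1) (b 1)
    rw [← h4, ← h5]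
    exact h3
  rw [h1, ← real_inner_self_eq_norm_sq, inner_add_left, inner_add_right, inner_add_right,
    real_inner_smul_left, real_inner_smul_left, real_inner_smul_left, real_inner_smul_left,
    real_inner_smul_right, real_inner_smul_right, real_inner_smul_right, real_inner_smul_right]
  simp only [Fin.sum_univ_two, gram, Matrix.of_apply]
  ring

theorem gra [IsContMDiffRiemannianBundle 𝓘(ℝ, E) ∞ E (fun (x : M) ↦ TangentSpace 𝓘(ℝ, E) x)]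
    (b : Module.Basis (Fin 2) ℝ E) (x₀ : M) :
    IsOpen (extChartAt 𝓘(ℝ, E) x₀).target ∧
    (∀ i j, ContDiffOn ℝ ∞ (fun z => gram b x₀ z i j) (extChartAt 𝓘(ℝ, E) x₀).target) ∧
    ∀ z ∈ (extChartAt 𝓘(ℝ, E) x₀).target, Pos2 (gram b x₀ z) ∧
      ∀ v : E, ‖dch x₀ z v‖ ^ 2 = ∑ i, ∑ j, gram b x₀ z i j * b.repr v i * b.repr v j := by
  have hopen : IsOpen (extChartAt 𝓘(ℝ, E) x₀).target := isOpen_extChartAt_target x₀
  have hsm : ContMDiffOn 𝓘(ℝ, E) 𝓘(ℝ, E) ∞ (extChartAt 𝓘(ℝ, E) x₀).symm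
    (extChartAt 𝓘(ℝ, E) x₀).target := contMDiffOn_extChartAt_symm x₀
  refine ⟨hopen, ?_, ?_⟩
  · have h1 : ContMDiffOn 𝓘(ℝ, E).tangent 𝓘(ℝ, E).tangent ∞
        (tangentMapWithin 𝓘(ℝ, E) 𝓘(ℝ, E) (extChartAt 𝓘(ℝ, E) x₀).symm
          (extChartAt 𝓘(ℝ, E) x₀).target)
        (Bundle.TotalSpace.proj ⁻¹' (extChartAt 𝓘(ℝ, E) x₀).target) :=
      hsm.contMDiffOn_tangentMapWithin (by simp) hopen.uniqueMDiffOn
    have hsec : ∀ i, ContMDiffOn 𝓘(ℝ, E) 𝓘(ℝ, E).tangent ∞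
        (fun z => (⟨(extChartAt 𝓘(ℝ, E) x₀).symm z, dch x₀ z (b i)⟩ : TangentBundle 𝓘(ℝ, E) M))
        (extChartAt 𝓘(ℝ, E) x₀).target := by
      intro i
      have h2 : ContMDiffOn 𝓘(ℝ, E) 𝓘(ℝ, E).tangent ∞
          (fun z : E => (⟨z, b i⟩ : TangentBundle 𝓘(ℝ, E) E)) (extChartAt 𝓘(ℝ, E) x₀).target := by
        exact (contMDiffOn_vectorSpace_iff_contDiffOn (V := fun _ : E => b i)).2 contDiffOn_const
      have h3 := h1.comp h2 (fun z hz => hz)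
      refine h3.congr fun z hz => ?_
      simp only [Function.comp_apply, tangentMapWithin, mfderivWithin_of_isOpen hopen hz]
      rfl
    intro i j
    have h4 := ContMDiffOn.inner_bundle (IB := 𝓘(ℝ, E)) (F := E)
      (E := fun (x : M) ↦ TangentSpace 𝓘(ℝ, E) x) (hsec i) (hsec j)
    exact h4.contDiffOn
  · intro z hz
    have hpos : ∀ v : E, v ≠ 0 → 0 < ∑ i, ∑ j, gram b x₀ z i j * b.repr v i * b.repr v j := by
      intro v hv
      rw [← norm_dch]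
      have : dch x₀ z v ≠ 0 := by
        intro h
        apply hv
        exact dch_inj x₀ hz (h.trans (map_zero _).symm)
      have := norm_pos_iff.2 this
      positivity
    have hsym : gram b x₀ z 0 1 = gram b x₀ z 1 0 := by
      simp only [gram, Matrix.of_apply]
      exact real_inner_comm _ _
    have h00 : 0 < gram b x₀ z 0 0 := by
      have h := hpos (b 0) (b.ne_zero 0)
      simp only [Fin.sum_univ_two] at h
      simpa using h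
    refine ⟨⟨hsym, h00, ?_⟩, fun v => norm_dch b x₀ z v⟩
    have h := hpos ((-gram b x₀ z 0 1) • b 0 + gram b x₀ z 0 0 • b 1) (by
      intro h
      have := congrArg (fun v : E => b.repr v 1) h
      simp at this
      exact h00.ne' this)
    have e0 : b.repr ((-gram b x₀ z 0 1) • b 0 + gram b x₀ z 0 0 • b 1 : E) 0 = -gram b x₀ z 0 1 := by
      simp
    have e1 : b.repr ((-gram b x₀ z 0 1) • b 0 + gram b x₀ z 0 0 • b 1 : E) 1 = gram b x₀ z 0 0 := by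
      simp
    simp only [Fin.sum_univ_two, e0, e1] at h
    rw [Matrix.det_fin_two]
    rw [← hsym] at h ⊢
    have h6 : 0 < gram b x₀ z 0 0 *
        (gram b x₀ z 0 0 * gram b x₀ z 1 1 - gram b x₀ z 0 1 * gram b x₀ z 0 1) := by
      nlinarith
    exact (mul_pos_iff_of_pos_left h00).1 h6

end

/-! ### Isothermal charts (CHA) -/

/-- the Laplace-Beltrami operator depends on the germ -/
theorem LBE_congr {E : Type v} [NormedAddCommGroup E] [NormedSpace ℝ E]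
    (b : Module.Basis (Fin 2) ℝ E) (𝔤 : E → Matrix (Fin 2) (Fin 2) ℝ) {h h' : E → ℝ} {z : E}
    (he : h =ᶠ[𝓝 z] h') : LBE b 𝔤 h z = LBE b 𝔤 h' z := by
  unfold LBE
  congr 1
  refine Finset.sum_congr rfl fun i _ => ?_
  have h1 : (fun y => √((𝔤 y).det) * ∑ j, (𝔤 y)⁻¹ i j * fderiv ℝ h y (b j)) =ᶠ[𝓝 z]
      fun y => √((𝔤 y).det) * ∑ j, (𝔤 y)⁻¹ i j * fderiv ℝ h' y (b j) := by
    filter_upwards [he.eventuallyEq_nhds] with y hy
    rw [hy.fderiv_eq]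
  rw [h1.fderiv_eq]

theorem cha {E : Type v} [NormedAddCommGroup E] [NormedSpace ℝ E] (b : Module.Basis (Fin 2) ℝ E)
    {M : Type u} [TopologicalSpace M] [ChartedSpace E M] [IsManifold 𝓘(ℝ, E) ∞ M]
    [RiemannianBundle (fun (x : M) ↦ TangentSpace 𝓘(ℝ, E) x)]
    [IsContMDiffRiemannianBundle 𝓘(ℝ, E) ∞ E (fun (x : M) ↦ TangentSpace 𝓘(ℝ, E) x)] (x₀ : M) :
    ∃ (U : Set ℂ) (φ : ℂ → M) (ψ : M → ℂ) (ρ : ℂ → ℝ), x₀ ∈ φ '' U ∧ IsoChart E U φ ψ ρ ∧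
      ∀ (lam : ℝ) (f : M → ℝ), EigM b lam f → ContDiffOn ℝ ∞ (fun w => f (φ w)) U ∧
        ∀ w ∈ U, lapC (fun w => f (φ w)) w + lam * ρ w * f (φ w) = 0 := by
  obtain ⟨hto, hgs, hgp⟩ := gra b x₀
  set e := extChartAt 𝓘(ℝ, E) x₀ with he
  have hz₀ : e x₀ ∈ e.target := mem_extChartAt_target x₀
  obtain ⟨W, ψ, χ, ρ, hzW, hWt, hWo, hUo, hψ, hχ, hinv, hρ, hpos, hconf, hlb⟩ :=
    iso_localE b e.target (e x₀) (gram b x₀) hto hz₀ hgs fun z hz => (hgp z hz).1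
  have hsymm : ContMDiffOn 𝓘(ℝ, E) 𝓘(ℝ, E) ∞ e.symm e.target := contMDiffOn_extChartAt_symm x₀
  have hch : ContMDiffOn 𝓘(ℝ, E) 𝓘(ℝ, E) ∞ e e.source := by
    have := contMDiffOn_extChartAt (I := 𝓘(ℝ, E)) (n := ∞) (x := x₀)
    rwa [← extChartAt_source 𝓘(ℝ, E)] at this
  have hχW : ∀ w ∈ ψ '' W, χ w ∈ W := by
    rintro w ⟨z, hz, rfl⟩
    rw [hinv z hz]
    exact hz
  have hχm : ContMDiffOn 𝓘(ℝ, ℂ) 𝓘(ℝ, E) ∞ χ (ψ '' W) := hχ.contMDiffOn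
  have hφ : ContMDiffOn 𝓘(ℝ, ℂ) 𝓘(ℝ, E) ∞ (fun w => e.symm (χ w)) (ψ '' W) :=
    hsymm.comp hχm fun w hw => hWt (hχW w hw)
  have himg : (fun w => e.symm (χ w)) '' (ψ '' W) = e.source ∩ e ⁻¹' W := by
    ext m
    constructor
    · rintro ⟨w, hw, rfl⟩
      have h1 := hχW w hw
      refine ⟨e.map_target (hWt h1), ?_⟩
      change e (e.symm (χ w)) ∈ W
      rw [e.right_inv (hWt h1)]
      exact h1
    · rintro ⟨h1, h2⟩
      refine ⟨ψ (e m), ⟨e m, h2, rfl⟩, ?_⟩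
      change e.symm (χ (ψ (e m))) = m
      rw [hinv _ h2, e.left_inv h1]
  have hopen : IsOpen (e.source ∩ e ⁻¹' W) := isOpen_extChartAt_preimage' x₀ hWo
  have hψm : ContMDiffOn 𝓘(ℝ, E) 𝓘(ℝ, ℂ) ∞ (fun m => ψ (e m)) (e.source ∩ e ⁻¹' W) :=
    hψ.contMDiffOn.comp (hch.mono inter_subset_left) fun m hm => hm.2
  -- the derivative of the chart
  have hder : ∀ w ∈ ψ '' W, ∀ v : ℂ, ∃ t : E, fderiv ℝ ψ (χ w) t = v ∧
      (mfderiv 𝓘(ℝ, ℂ) 𝓘(ℝ, E) (fun w => e.symm (χ w)) w v : E) = (dch x₀ (χ w) t : E) := by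
    intro w hw v
    have h1 : MDifferentiableAt 𝓘(ℝ, ℂ) 𝓘(ℝ, E) χ w :=
      (hχm.contMDiffAt (hUo.mem_nhds hw)).mdifferentiableAt (by norm_num)
    have h2 : MDifferentiableAt 𝓘(ℝ, E) 𝓘(ℝ, E) e.symm (χ w) :=
      (hsymm.contMDiffAt (hto.mem_nhds (hWt (hχW w hw)))).mdifferentiableAt (by norm_num)
    have h3 := mfderiv_comp w h2 h1
    refine ⟨fderiv ℝ χ w v, ?_, ?_⟩
    · have h4 : (fun y => ψ (χ y)) =ᶠ[𝓝 w] fun y => y := by
        filter_upwards [hUo.mem_nhds hw] with y hy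
        obtain ⟨z, hz, rfl⟩ := hy
        rw [hinv z hz]
      have h5 : HasFDerivAt (fun y => ψ (χ y)) ((fderiv ℝ ψ (χ w)).comp (fderiv ℝ χ w)) w := by
        have h6 : DifferentiableAt ℝ ψ (χ w) :=
          (hψ.contDiffAt (hWo.mem_nhds (hχW w hw))).differentiableAt (by norm_num)
        have h7 : DifferentiableAt ℝ χ w :=
          (hχ.contDiffAt (hUo.mem_nhds hw)).differentiableAt (by norm_num)
        exact h6.hasFDerivAt.comp w h7.hasFDerivAt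
      have h8 := (h5.congr_of_eventuallyEq h4.symm).unique (hasFDerivAt_id w)
      have h9 := congrArg (fun L : ℂ →L[ℝ] ℂ => L v) h8
      exact h9
    · have e1 : (mfderiv 𝓘(ℝ, ℂ) 𝓘(ℝ, E) (fun w => e.symm (χ w)) w v : E) =
          (mfderiv 𝓘(ℝ, E) 𝓘(ℝ, E) e.symm (χ w) (mfderiv 𝓘(ℝ, ℂ) 𝓘(ℝ, E) χ w v) : E) :=
        congrArg (fun L : ℂ →L[ℝ] E => L v) h3
      have e3 : (mfderiv 𝓘(ℝ, ℂ) 𝓘(ℝ, E) χ w v : E) = fderiv ℝ χ w v :=
        congrArg (fun L : ℂ →L[ℝ] E => L v) mfderiv_eq_fderiv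
      refine e1.trans ?_
      exact congrArg (fun t : E => (mfderiv 𝓘(ℝ, E) 𝓘(ℝ, E) e.symm (χ w) t : E)) e3
  refine ⟨ψ '' W, fun w => e.symm (χ w), fun m => ψ (e m), ρ, ?_, ?_, ?_⟩
  · rw [himg]
    exact ⟨mem_extChartAt_source x₀, hzW⟩
  · refine ⟨hUo, ?_, hφ, ?_, ?_, hρ, hpos, ?_⟩
    · rw [himg]
      exact hopen
    · rw [himg]
      exact hψm
    · rintro w ⟨z, hz, rfl⟩
      rw [hinv z hz, e.right_inv (hWt hz)]
    · intro w hw v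
      obtain ⟨t, ht, hd⟩ := hder w hw v
      have h1 := (hgp (χ w) (hWt (hχW w hw))).2 t
      have h2 := hconf (χ w) (hχW w hw) t
      have h3 : ψ (χ w) = w := by
        obtain ⟨z, hz, rfl⟩ := hw
        rw [hinv z hz]
      rw [h3, ht] at h2
      rw [← h2, ← h1]
      have h4 : ‖mfderiv 𝓘(ℝ, ℂ) 𝓘(ℝ, E) (fun w => e.symm (χ w)) w v‖ = ‖dch x₀ (χ w) t‖ := by
        have h5 : ∀ a b : E, a = b →
            ‖(show TangentSpace 𝓘(ℝ, E) (e.symm (χ w)) from a)‖ =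
            ‖(show TangentSpace 𝓘(ℝ, E) (e.symm (χ w)) from b)‖ := by
          rintro a b rfl
          rfl
        exact h5 _ _ hd
      rw [h4]
  · intro lam f hf
    obtain ⟨hfs, hfe⟩ := hf
    have h1 : ContMDiffOn 𝓘(ℝ, ℂ) 𝓘(ℝ, ℝ) ∞ (fun w => f (e.symm (χ w))) (ψ '' W) :=
      hfs.comp_contMDiffOn hφ
    have h2 : ContDiffOn ℝ ∞ (fun w => f (e.symm (χ w))) (ψ '' W) := h1.contDiffOn
    refine ⟨h2, ?_⟩
    rintro w ⟨z, hz, rfl⟩
    have h3 := hlb _ h2 z hz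
    have h4 : (fun y => f (e.symm (χ (ψ y)))) =ᶠ[𝓝 z] fun y => f (e.symm y) := by
      filter_upwards [hWo.mem_nhds hz] with y hy
      rw [hinv y hy]
    have h5 := hfe x₀ z (hWt hz)
    rw [LBE_congr b _ h4] at h3
    rw [h3]
    change ρ (ψ z) * LBE b (gram b x₀) (fun y => f (e.symm y)) z +
      lam * ρ (ψ z) * f (e.symm (χ (ψ z))) = 0
    rw [hinv z hz]
    linear_combination ρ (ψ z) * h5

/-! ### Transition maps (TRA) -/

section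
variable {E : Type v} [NormedAddCommGroup E] [NormedSpace ℝ E]
  {M : Type u} [TopologicalSpace M] [ChartedSpace E M]
  [RiemannianBundle (fun (x : M) ↦ TangentSpace 𝓘(ℝ, E) x)]

/-- the norm of one vector at two equal points -/
theorem norm_base {x y : M} (h : x = y) (v : E) :
    ‖(show TangentSpace 𝓘(ℝ, E) x from v)‖ = ‖(show TangentSpace 𝓘(ℝ, E) y from v)‖ := by
  subst h
  rfl

end

theorem tra {E : Type v} [NormedAddCommGroup E] [NormedSpace ℝ E]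
    {M : Type u} [TopologicalSpace M] [ChartedSpace E M] [IsManifold 𝓘(ℝ, E) ∞ M]
    [RiemannianBundle (fun (x : M) ↦ TangentSpace 𝓘(ℝ, E) x)]
    (U U' : Set ℂ) (φ φ' : ℂ → M) (ψ ψ' : M → ℂ) (ρ ρ' : ℂ → ℝ) (h : IsoChart E U φ ψ ρ)
    (h' : IsoChart E U' φ' ψ' ρ') (z : ℂ) (hz : z ∈ U) (w : ℂ) (hw : w ∈ U') (hzw : φ z = φ' w) :
    ∃ τ : ℂ → ℂ, τ z = w ∧
    (∀ᶠ z' in 𝓝 z, τ z' ∈ U' ∧ φ' (τ z') = φ z') ∧ DifferentiableAt ℝ τ z ∧
    ∀ v : ℂ, ρ' w * ‖fderiv ℝ τ z v‖ ^ 2 = ρ z * ‖v‖ ^ 2 := by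
  have hφ : ContMDiffAt 𝓘(ℝ, ℂ) 𝓘(ℝ, E) ∞ φ z := h.smoothφ.contMDiffAt (h.openU.mem_nhds hz)
  have hmem : φ z ∈ φ' '' U' := ⟨w, hw, hzw.symm⟩
  have hψ' : ContMDiffAt 𝓘(ℝ, E) 𝓘(ℝ, ℂ) ∞ ψ' (φ z) :=
    h'.smoothψ.contMDiffAt (h'.openI.mem_nhds hmem)
  have hτz : ψ' (φ z) = w := by rw [hzw, h'.inv w hw]
  have hev : ∀ᶠ z' in 𝓝 z, ψ' (φ z') ∈ U' ∧ φ' (ψ' (φ z')) = φ z' := by
    have h1 : ∀ᶠ z' in 𝓝 z, φ z' ∈ φ' '' U' :=
      hφ.continuousAt.eventually (h'.openI.mem_nhds hmem)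
    filter_upwards [h1] with z' hz'
    obtain ⟨u, hu, he⟩ := hz'
    rw [← he, h'.inv u hu]
    exact ⟨hu, rfl⟩
  have hτ : ContMDiffAt 𝓘(ℝ, ℂ) 𝓘(ℝ, ℂ) ∞ (fun y => ψ' (φ y)) z := hψ'.comp z hφ
  have hτd : DifferentiableAt ℝ (fun y => ψ' (φ y)) z :=
    hτ.contDiffAt.differentiableAt (by norm_num)
  refine ⟨fun y => ψ' (φ y), hτz, hev, hτd, fun v => ?_⟩
  have hφ'w : ContMDiffAt 𝓘(ℝ, ℂ) 𝓘(ℝ, E) ∞ φ' (ψ' (φ z)) := by
    rw [hτz]
    exact h'.smoothφ.contMDiffAt (h'.openU.mem_nhds hw)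
  have hEq : φ =ᶠ[𝓝 z] fun y => φ' (ψ' (φ y)) := hev.mono fun y hy => hy.2.symm
  have h1 := hEq.mfderiv_eq (I := 𝓘(ℝ, ℂ)) (I' := 𝓘(ℝ, E))
  have h2 := mfderiv_comp z (g := φ') (f := fun y => ψ' (φ y))
    (hφ'w.mdifferentiableAt (by norm_num)) (hτ.mdifferentiableAt (by norm_num))
  have h3 := h.conf z hz v
  have h4 := h'.conf w hw (fderiv ℝ (fun y => ψ' (φ y)) z v)
  rw [← h4, ← h3]
  have hu : ∀ u : ℂ, u = w → ∀ t : ℂ, (mfderiv 𝓘(ℝ, ℂ) 𝓘(ℝ, E) φ' u t : E) =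
      (mfderiv 𝓘(ℝ, ℂ) 𝓘(ℝ, E) φ' w t : E) := by
    rintro u rfl t
    rfl
  have hAB : (mfderiv 𝓘(ℝ, ℂ) 𝓘(ℝ, E) φ z v : E) =
      (mfderiv 𝓘(ℝ, ℂ) 𝓘(ℝ, E) φ' w (fderiv ℝ (fun y => ψ' (φ y)) z v) : E) := by
    have e1 : (mfderiv 𝓘(ℝ, ℂ) 𝓘(ℝ, E) φ z v : E) =
        (mfderiv 𝓘(ℝ, ℂ) 𝓘(ℝ, E) (φ' ∘ fun y => ψ' (φ y)) z v : E) :=
      congrArg (fun L : ℂ →L[ℝ] E => L v) h1
    have e2 : (mfderiv 𝓘(ℝ, ℂ) 𝓘(ℝ, E) (φ' ∘ fun y => ψ' (φ y)) z v : E) =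
        (mfderiv 𝓘(ℝ, ℂ) 𝓘(ℝ, E) φ' (ψ' (φ z)) (mfderiv 𝓘(ℝ, ℂ) 𝓘(ℝ, ℂ)
          (fun y => ψ' (φ y)) z v) : E) :=
      congrArg (fun L : ℂ →L[ℝ] E => L v) h2
    have e3 : (mfderiv 𝓘(ℝ, ℂ) 𝓘(ℝ, ℂ) (fun y => ψ' (φ y)) z v : ℂ) =
        fderiv ℝ (fun y => ψ' (φ y)) z v :=
      congrArg (fun L : ℂ →L[ℝ] ℂ => L v) mfderiv_eq_fderiv
    refine e1.trans (e2.trans ((hu _ hτz _).trans ?_))
    exact congrArg (fun t : ℂ => (mfderiv 𝓘(ℝ, ℂ) 𝓘(ℝ, E) φ' w t : E)) e3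
  have hn := norm_base (E := E) hzw (mfderiv 𝓘(ℝ, ℂ) 𝓘(ℝ, E) φ z v : E)
  have hn2 : ‖mfderiv 𝓘(ℝ, ℂ) 𝓘(ℝ, E) φ z v‖ =
      ‖mfderiv 𝓘(ℝ, ℂ) 𝓘(ℝ, E) φ' w (fderiv ℝ (fun y => ψ' (φ y)) z v)‖ := by
    refine hn.trans ?_
    rw [hAB]
  rw [hn2]

/-! ### Lengths (LEN) -/

theorem len {E : Type v} [NormedAddCommGroup E] [NormedSpace ℝ E]
    {M : Type u} [MetricSpace M] [ChartedSpace E M] [IsManifold 𝓘(ℝ, E) ∞ M]
    [RiemannianBundle (fun (x : M) ↦ TangentSpace 𝓘(ℝ, E) x)] [IsRiemannianManifold 𝓘(ℝ, E) M]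
    (U : Set ℂ) (φ : ℂ → M) (ψ : M → ℂ) (ρ : ℂ → ℝ) (hφ : IsoChart E U φ ψ ρ) (γ : ℝ → ℂ)
    (hγ : ContDiff ℝ 1 γ) (a b : ℝ) (hab : a ≤ b) (hU : ∀ t ∈ Icc a b, γ t ∈ U) :
    Manifold.pathELength 𝓘(ℝ, E) (fun t => φ (γ t)) a b
      = ENNReal.ofReal (∫ t in a..b, √(ρ (γ t)) * ‖deriv γ t‖) ∧
    dist (φ (γ a)) (φ (γ b)) ≤ ∫ t in a..b, √(ρ (γ t)) * ‖deriv γ t‖ := by
  have hγd : ∀ t, DifferentiableAt ℝ γ t := fun t => hγ.differentiable one_ne_zero t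
  have hφd : ∀ t ∈ Icc a b, MDifferentiableAt 𝓘(ℝ, ℂ) 𝓘(ℝ, E) φ (γ t) := fun t ht =>
    ((hφ.smoothφ (γ t) (hU t ht)).contMDiffAt (hφ.openU.mem_nhds (hU t ht))).mdifferentiableAt
      (by simp)
  have hder : ∀ t ∈ Icc a b, mfderiv 𝓘(ℝ, ℝ) 𝓘(ℝ, E) (fun t => φ (γ t)) t 1 =
      mfderiv 𝓘(ℝ, ℂ) 𝓘(ℝ, E) φ (γ t) (deriv γ t) := fun t ht => by
    have h1 := mfderiv_comp (I := 𝓘(ℝ, ℝ)) (I' := 𝓘(ℝ, ℂ)) (I'' := 𝓘(ℝ, E)) t (hφd t ht)
      (hγd t).mdifferentiableAt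
    have h2 : (fun t => φ (γ t)) = φ ∘ γ := rfl
    rw [h2, h1]
    rw [mfderiv_eq_fderiv]
    rfl
  have hnorm : ∀ t ∈ Icc a b, ‖mfderiv 𝓘(ℝ, ℝ) 𝓘(ℝ, E) (fun t => φ (γ t)) t 1‖ₑ =
      ENNReal.ofReal (√(ρ (γ t)) * ‖deriv γ t‖) := fun t ht => by
    rw [hder t ht, ← ofReal_norm]
    congr 1
    have h1 := hφ.conf (γ t) (hU t ht) (deriv γ t)
    have h2 := hφ.pos (γ t) (hU t ht)
    have h3 : (√(ρ (γ t)) * ‖deriv γ t‖) ^ 2 = ρ (γ t) * ‖deriv γ t‖ ^ 2 := by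
      rw [mul_pow, Real.sq_sqrt h2.le]
    rw [← h3] at h1
    exact (sq_eq_sq₀ (norm_nonneg _) (by positivity)).1 h1
  have hcont : ContinuousOn (fun t => √(ρ (γ t)) * ‖deriv γ t‖) (Icc a b) := by
    refine ContinuousOn.mul ?_ ?_
    · refine ContinuousOn.sqrt ?_
      exact hφ.smoothρ.continuousOn.comp hγ.continuous.continuousOn hU
    · exact ((hγ.continuous_deriv le_rfl).norm).continuousOn
  have hint : IntegrableOn (fun t => √(ρ (γ t)) * ‖deriv γ t‖) (Icc a b) :=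
    hcont.integrableOn_compact isCompact_Icc
  have hnn : ∀ t, 0 ≤ √(ρ (γ t)) * ‖deriv γ t‖ := fun t => by positivity
  have hlen : Manifold.pathELength 𝓘(ℝ, E) (fun t => φ (γ t)) a b
      = ENNReal.ofReal (∫ t in a..b, √(ρ (γ t)) * ‖deriv γ t‖) := by
    rw [Manifold.pathELength_eq_lintegral_mfderiv_Icc, setLIntegral_congr_fun measurableSet_Icc hnorm,
      intervalIntegral.integral_of_le hab, ← integral_Icc_eq_integral_Ioc,
      ofReal_integral_eq_lintegral_ofReal hint (Filter.Eventually.of_forall hnn)]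
  refine ⟨hlen, ?_⟩
  have hI : 0 ≤ ∫ t in a..b, √(ρ (γ t)) * ‖deriv γ t‖ :=
    intervalIntegral.integral_nonneg hab fun t _ => hnn t
  have h1 : Manifold.riemannianEDist 𝓘(ℝ, E) (φ (γ a)) (φ (γ b)) ≤
      Manifold.pathELength 𝓘(ℝ, E) (fun t => φ (γ t)) a b := by
    refine Manifold.riemannianEDist_le_pathELength ?_ rfl rfl hab
    have h2 : ContMDiffOn 𝓘(ℝ, ℝ) 𝓘(ℝ, ℂ) 1 γ (Icc a b) := hγ.contMDiff.contMDiffOn
    exact (hφ.smoothφ.of_le (by simp)).comp h2 hU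
  rw [← IsRiemannianManifold.out (I := 𝓘(ℝ, E)), hlen, edist_dist] at h1
  exact (ENNReal.ofReal_le_ofReal_iff hI).1 h1

/-! ### Subdivision of curves (SUB) -/

theorem sub {E : Type v} [NormedAddCommGroup E] [NormedSpace ℝ E]
    {M : Type u} [MetricSpace M] [ChartedSpace E M] [IsManifold 𝓘(ℝ, E) ∞ M]
    [RiemannianBundle (fun (x : M) ↦ TangentSpace 𝓘(ℝ, E) x)] [IsRiemannianManifold 𝓘(ℝ, E) M]
    (ι : Type u) (U : ι → Set ℂ) (φ : ι → ℂ → M) (ψ : ι → M → ℂ) (ρ : ι → ℂ → ℝ)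
    (hiso : ∀ i, IsoChart E (U i) (φ i) (ψ i) (ρ i)) (hcov : ∀ x, ∃ i, x ∈ φ i '' U i) (x y : M)
    (c : ℝ) (hxy : dist x y < c) : ∃ l ∈ Pool.Agent.Q73.AD.Lengths U φ ρ x y, l < c := by
  have hc0 : 0 < c := lt_of_le_of_lt dist_nonneg hxy
  have h1 : Manifold.riemannianEDist 𝓘(ℝ, E) x y < ENNReal.ofReal c := by
    rw [← IsRiemannianManifold.out (I := 𝓘(ℝ, E)), edist_lt_ofReal]
    exact hxy
  obtain ⟨γ, hγ0, hγ1, hγ, hlen, -, -⟩ :=
    Manifold.exists_lt_locally_constant_of_riemannianEDist_lt h1 (zero_lt_one (α := ℝ))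
  have hγc : Continuous γ := hγ.continuous
  -- subdivision
  obtain ⟨t, ht0, htm, ⟨n, hn⟩, hti⟩ := exists_monotone_Icc_subset_open_cover_Icc
    (zero_le_one (α := ℝ)) (c := fun i : ι => {s : Icc (0 : ℝ) 1 | γ s ∈ φ i '' U i})
    (fun i => ((hiso i).openI.preimage (hγc.comp continuous_subtype_val)))
    (fun s _ => by
      obtain ⟨i, hi⟩ := hcov (γ s)
      exact mem_iUnion.2 ⟨i, hi⟩)
  choose i hi using hti
  have htle : ∀ k, (t k : ℝ) ≤ t (k + 1) := fun k => htm (Nat.le_succ k)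
  -- the pieces
  let f : ℕ → ℝ → ℝ := fun k s => t k + Real.smoothTransition s * (t (k + 1) - t k)
  have hf0 : ∀ k, f k 0 = t k := by
    intro k; simp only [f, Real.smoothTransition.zero]; ring
  have hf1 : ∀ k, f k 1 = t (k + 1) := by
    intro k; simp only [f, Real.smoothTransition.one]; ring
  have hfI : ∀ k s, f k s ∈ Icc (t k : ℝ) (t (k + 1)) := by
    intro k s
    have h2 := Real.smoothTransition.nonneg s
    have h3 := Real.smoothTransition.le_one s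
    have h4 := htle k
    constructor
    · simp only [f]; nlinarith
    · simp only [f]; nlinarith
  have hfsm : ∀ k, ContDiff ℝ 1 (f k) := by
    intro k
    have : ContDiff ℝ 1 Real.smoothTransition := Real.smoothTransition.contDiff
    simp only [f]
    fun_prop
  have hfmono : ∀ k, Monotone (f k) := by
    intro k s s' hs
    have h2 := Real.smoothTransition.monotone hs
    have h4 := htle k
    simp only [f]
    nlinarith
  have hmem : ∀ k s, γ (f k s) ∈ φ (i k) '' U (i k) := by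
    intro k s
    have h2 := hfI k s
    have h3 : f k s ∈ Icc (0 : ℝ) 1 := ⟨(t k).2.1.trans h2.1, h2.2.trans (t (k + 1)).2.2⟩
    exact hi k (show (⟨f k s, h3⟩ : Icc (0 : ℝ) 1) ∈ Icc (t k) (t (k + 1)) from h2)
  let σ : ℕ → ℝ → ℂ := fun k s => ψ (i k) (γ (f k s))
  have hφσ : ∀ k s, φ (i k) (σ k s) = γ (f k s) := by
    intro k s
    obtain ⟨w, hw, hw2⟩ := hmem k s
    simp only [σ]
    rw [← hw2, (hiso (i k)).inv w hw]
  have hσU : ∀ k s, σ k s ∈ U (i k) := by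
    intro k s
    obtain ⟨w, hw, hw2⟩ := hmem k s
    simp only [σ]
    rw [← hw2, (hiso (i k)).inv w hw]
    exact hw
  have hσsm : ∀ k, ContDiff ℝ 1 (σ k) := by
    intro k
    rw [← contMDiff_iff_contDiff]
    have h2 : ContMDiff 𝓘(ℝ, ℝ) 𝓘(ℝ, E) 1 (fun s => γ (f k s)) :=
      hγ.comp (hfsm k).contMDiff
    intro s
    have h3 : ContMDiffAt 𝓘(ℝ, E) 𝓘(ℝ, ℂ) 1 (ψ (i k)) (γ (f k s)) :=
      (((hiso (i k)).smoothψ.of_le (by simp)) _ (hmem k s)).contMDiffAt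
        ((hiso (i k)).openI.mem_nhds (hmem k s))
    exact h3.comp s (h2 s)
  have hlenk : ∀ k, Manifold.pathELength 𝓘(ℝ, E) γ (t k) (t (k + 1)) =
      ENNReal.ofReal (∫ s in (0 : ℝ)..1, √(ρ (i k) (σ k s)) * ‖deriv (σ k) s‖) := by
    intro k
    have h2 := (len (U (i k)) (φ (i k)) (ψ (i k)) (ρ (i k)) (hiso (i k)) (σ k) (hσsm k) 0 1
      zero_le_one (fun s _ => hσU k s)).1
    rw [← h2]
    have h3 : (fun s => φ (i k) (σ k s)) = γ ∘ f k := by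
      funext s; exact hφσ k s
    rw [h3, Manifold.pathELength_comp_of_monotoneOn zero_le_one ((hfmono k).monotoneOn _)
      ((hfsm k).differentiable one_ne_zero).differentiableOn
      (hγ.mdifferentiable one_ne_zero).mdifferentiableOn, hf0, hf1]
  have hsum : ∀ m, Manifold.pathELength 𝓘(ℝ, E) γ (t 0) (t m) =
      ENNReal.ofReal (∑ k ∈ Finset.range m,
        ∫ s in (0 : ℝ)..1, √(ρ (i k) (σ k s)) * ‖deriv (σ k) s‖) := by
    intro m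
    induction m with
    | zero => simp
    | succ m ih =>
      rw [Finset.sum_range_succ, ENNReal.ofReal_add, ← ih, ← hlenk,
        Manifold.pathELength_add (htm (Nat.zero_le m)) (htle m)]
      · exact Finset.sum_nonneg fun k _ =>
          intervalIntegral.integral_nonneg zero_le_one fun s _ => by positivity
      · exact intervalIntegral.integral_nonneg zero_le_one fun s _ => by positivity
  have ht0' : ((t 0 : Icc (0:ℝ) 1) : ℝ) = 0 := ht0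
  have htn : ((t n : Icc (0:ℝ) 1) : ℝ) = 1 := hn n le_rfl
  refine ⟨_, ⟨n, i, σ, fun k => γ (t k), by simp only; rw [ht0', hγ0],
    by simp only; rw [htn, hγ1], ?_, rfl⟩, ?_⟩
  · intro k _
    exact ⟨hσsm k, fun s _ => hσU k s, by rw [hφσ, hf0], by rw [hφσ, hf1]⟩
  · have h2 := hsum n
    rw [ht0', htn] at h2
    rw [h2] at hlen
    exact (ENNReal.ofReal_lt_ofReal_iff hc0).1 hlen

/-! ### The atlas -/

section

variable {E : Type v} [NormedAddCommGroup E] [NormedSpace ℝ E]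
  {M : Type u} [MetricSpace M] [ChartedSpace E M]
  [RiemannianBundle (fun (x : M) ↦ TangentSpace 𝓘(ℝ, E) x)]

lemma IsoChart.injOn {U : Set ℂ} {φ : ℂ → M} {ψ : M → ℂ} {ρ : ℂ → ℝ} (h : IsoChart E U φ ψ ρ) :
    InjOn φ U := fun a ha b hb hab => by
  rw [← h.inv a ha, ← h.inv b hb, hab]

lemma IsoChart.isOpen_image {U : Set ℂ} {φ : ℂ → M} {ψ : M → ℂ} {ρ : ℂ → ℝ}
    (h : IsoChart E U φ ψ ρ) (S : Set ℂ) (hS : IsOpen S) (hSU : S ⊆ U) : IsOpen (φ '' S) := by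
  have h1 : φ '' S = φ '' U ∩ ψ ⁻¹' S := by
    ext m
    constructor
    · rintro ⟨w, hw, rfl⟩
      refine ⟨⟨w, hSU hw, rfl⟩, ?_⟩
      rw [mem_preimage, h.inv w (hSU hw)]
      exact hw
    · rintro ⟨⟨w, hw, rfl⟩, hm⟩
      rw [mem_preimage, h.inv w hw] at hm
      exact ⟨w, hm, rfl⟩
  rw [h1]
  exact h.smoothψ.continuousOn.isOpen_inter_preimage h.openI hS

end

/-- **Isothermal atlas** of a smooth Riemannian surface `M`, modelled on a two-dimensional normed space `E`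
with basis `b`. -/
theorem atlas {E : Type v} [NormedAddCommGroup E] [NormedSpace ℝ E] (b : Module.Basis (Fin 2) ℝ E)
    (M : Type u) [MetricSpace M] [ChartedSpace E M]
    [IsManifold 𝓘(ℝ, E) ∞ M] [RiemannianBundle (fun (x : M) ↦ TangentSpace 𝓘(ℝ, E) x)]
    [IsContMDiffRiemannianBundle 𝓘(ℝ, E) ∞ E (fun (x : M) ↦ TangentSpace 𝓘(ℝ, E) x)]
    [IsRiemannianManifold 𝓘(ℝ, E) M] :
    ∃ (U : M → Set ℂ) (φ : M → ℂ → M) (ρ : M → ℂ → ℝ), Pool.Agent.Q73.AD.Riem U φ ρ ∧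
      (∀ i, ContDiffOn ℝ ∞ (ρ i) (U i)) ∧
      ∀ (lam : ℝ) (f : M → ℝ), EigM b lam f → Pool.Agent.Q73.AD.Eig U φ ρ lam f := by
  have hch := fun x₀ : M => cha b x₀
  choose U φ ψ ρ hx hiso heig using hch
  refine ⟨U, φ, ρ, ?_, fun i => (hiso i).smoothρ, fun lam f hf i => heig i lam f hf⟩
  have hlen : ∀ x y : M, ∀ l ∈ Pool.Agent.Q73.AD.Lengths U φ ρ x y, dist x y ≤ l := by
    rintro x y l ⟨n, i, γ, Q, h0, hn, hk, rfl⟩
    rw [← h0, ← hn]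
    clear h0 hn
    induction n with
    | zero => simp
    | succ n ih =>
      rw [Finset.sum_range_succ]
      refine (dist_triangle _ (Q n) _).trans (add_le_add (ih fun k hk' => hk k (by omega)) ?_)
      obtain ⟨h1, h2, h3, h4⟩ := hk n (by omega)
      rw [← h3, ← h4]
      exact (len (U (i n)) (φ (i n)) (ψ (i n)) (ρ (i n)) (hiso (i n)) (γ n) h1 0 1 zero_le_one
        h2).2
  refine ⟨fun i => (hiso i).openU, fun i => (hiso i).injOn, fun i => (hiso i).smoothφ.continuousOn,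
    fun i S hS hSU => (hiso i).isOpen_image S hS hSU, fun x => ⟨x, hx x⟩, fun i => (hiso i).pos,
    fun i => (hiso i).smoothρ.of_le (by norm_num), fun i j z hz w hw h => ?_, fun x y => ?_⟩
  · exact tra (U i) (U j) (φ i) (φ j) (ψ i) (ψ j) (ρ i) (ρ j) (hiso i) (hiso j) z hz w hw h
  · have hne : ∀ c, dist x y < c → ∃ l ∈ Pool.Agent.Q73.AD.Lengths U φ ρ x y, l < c := fun c hc =>
      sub M U φ ψ ρ hiso (fun x => ⟨x, hx x⟩) x y c hc
    refine (csInf_eq_of_forall_ge_of_forall_gt_exists_lt ?_ (hlen x y) ?_).symm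
    · obtain ⟨l, hl, -⟩ := hne (dist x y + 1) (by linarith)
      exact ⟨l, hl⟩
    · exact fun c hc => hne c hc

end Pool.Agent.Q63.ISE
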